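import Mathlib
import Pool.Agent.W66.CI
import Pool.Agent.W66.CB
import Pool.Agent.W66.XG
import Pool.Agent.H447R2.ML.P9

set_option autoImplicit false

/-!
# Sparse sets of exponents, almost every real base
-/

namespace Pool.Agent.R449.SP

open Finset MeasureTheory Filter Topology
open Pool.Agent.W66C
open Pool.Agent.W66X (ae_of_exp')
open Pool.Agent.H305R2 (roughPart ff measurable_ff ff_nonneg ff_le_one)
open Pool.Agent.H447R2.ML (ff_eq_floor)

/-- the phases of `x ^ N + 1`, `x = exp t` -/
lemma yy_eq (N : ℕ) (t : ℝ) : yy 1 0 1 (fun _ => 0) N t = Real.log ((Real.exp t) ^ N + 1) := by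
  have h1 : (Real.exp t) ^ N + 1 = Real.exp (N * t) * (1 + Real.exp (-(N * t))) := by
    rw [mul_add, ← Real.exp_add, add_neg_cancel, Real.exp_zero, ← Real.exp_nat_mul]
    ring
  rw [h1, Real.log_mul (Real.exp_pos _).ne' (by positivity), Real.log_exp]
  unfold yy
  rw [one_mul, one_mul, sub_zero, add_zero]

/-- the measure of the exceptional set in a window -/
lemma window (b0 b1 : ℝ) (hb0 : 0 < b0) (hb01 : b0 < b1) : ∃ K : ℝ, 0 < K ∧ ∃ P : ℕ, ∀ N ≥ P,
    ∫ t in Set.Ioc b0 b1, ff N (yy 1 0 1 (fun _ => 0) N t) ≤ K * (Real.log N / N) := by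
  obtain ⟨D, hD, hev⟩ := fam_cur (m1 := 1) (m0 := 0) (s := 1) (c0 := 0) one_pos (by norm_num)
    (by norm_num) (H := fun _ => 0) (H' := fun _ => 0) (H'' := fun _ => 0)
    (fun t _ => hasDerivAt_const t 0) (fun t _ => hasDerivAt_const t 0) continuousOn_const
    (b0 / 2) (b1 + 1) (by linarith) (by linarith)
  obtain ⟨K, hK, P, hP3, hP⟩ := one_loc (a0 := b0 / 2) (a1 := b1 + 1) (b0 := b0) (b1 := b1)
    (by linarith) hD (by linarith) hb01 (by linarith)
  obtain ⟨P1, hP1⟩ := eventually_atTop.1 hev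
  refine ⟨K, hK, P + P1, fun N hN => ?_⟩
  exact ((hP N (by omega)).2 _ _ (hP1 N (by omega)).loc).2.2.1

/-- the values are integers only for countably many parameters -/
lemma not_int' : ∀ᵐ t : ℝ, ∀ N m : ℕ, 1 ≤ N → (Real.exp t) ^ N + 1 ≠ m := by
  have hnull : volume (⋃ N : ℕ, ⋃ m : ℕ, {t : ℝ | 1 ≤ N ∧ (Real.exp t) ^ N + 1 = m}) = 0 := by
    refine Set.Countable.measure_zero ?_ volume
    refine Set.countable_iUnion fun N => Set.countable_iUnion fun m => ?_
    refine Set.Subsingleton.countable ?_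
    rintro s ⟨hN, hs⟩ t ⟨_, ht⟩
    have h3 : (Real.exp s) ^ N = (Real.exp t) ^ N := by linarith
    exact Real.exp_injective ((pow_left_inj₀ (Real.exp_pos _).le (Real.exp_pos _).le (by omega)).1 h3)
  have hae : ∀ᵐ t : ℝ, t ∉ ⋃ N : ℕ, ⋃ m : ℕ, {t : ℝ | 1 ≤ N ∧ (Real.exp t) ^ N + 1 = m} := by
    rw [ae_iff]
    refine measure_mono_null (fun t ht => ?_) hnull
    simpa only [Set.mem_ofPred_eq, not_not] using ht
  filter_upwards [hae] with t ht N m hN hm
  refine ht ?_
  simp only [Set.mem_iUnion]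
  exact ⟨N, m, hN, hm⟩

/-- **Sparse exponents.** -/
theorem sparse_base {E : Set ℕ} (hE : Summable (E.indicator fun N : ℕ => Real.log N / N)) :
    ∀ᵐ x : ℝ, 1 < x → {N : ℕ | N ∈ E ∧ (roughPart N (⌊x ^ N⌋₊ + 1)).Prime}.Finite := by
  classical
  have key : ∀ᵐ x : ℝ, 0 < x → (1 < x → {N : ℕ | N ∈ E ∧ (roughPart N (⌊x ^ N⌋₊ + 1)).Prime}.Finite) := by
    refine ae_of_exp' (P := fun x : ℝ => 1 < x →
      {N : ℕ | N ∈ E ∧ (roughPart N (⌊x ^ N⌋₊ + 1)).Prime}.Finite) ?_
    have h1 : ∀ j : ℕ, ∀ᵐ t : ℝ, t ∈ Set.Ioc (1 / ((j : ℝ) + 2)) ((j : ℝ) + 2) →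
        {N : ℕ | N ∈ E ∧ (roughPart N (⌊(Real.exp t) ^ N⌋₊ + 1)).Prime}.Finite := by
      intro j
      have hj : (0 : ℝ) ≤ j := Nat.cast_nonneg j
      have hb0 : (0 : ℝ) < 1 / ((j : ℝ) + 2) := by positivity
      have hb01 : 1 / ((j : ℝ) + 2) < (j : ℝ) + 2 := by
        rw [div_lt_iff₀ (by positivity)]
        nlinarith
      obtain ⟨K, hK, P, hP⟩ := window _ _ hb0 hb01
      rw [← ae_restrict_iff' measurableSet_Ioc]
      set μ := volume.restrict (Set.Ioc (1 / ((j : ℝ) + 2)) ((j : ℝ) + 2)) with hμ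
      set F : ℕ → ℝ → ℝ := fun N t => ff N (yy 1 0 1 (fun _ => 0) N t) with hF
      have hFm : ∀ N, Measurable (F N) := fun N =>
        (measurable_ff N).comp (measurable_yy 1 0 1 measurable_const N)
      set s : ℕ → Set ℝ := fun n => {t | n + P ∈ E ∧ F (n + P) t = 1} with hs
      have hmeas : ∀ n, MeasurableSet (s n) := by
        intro n
        by_cases hn : n + P ∈ E
        · have : s n = {t | F (n + P) t = 1} := by
            ext t; simp [hs, hn]
          rw [this]
          exact (hFm (n + P)) (measurableSet_singleton 1)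
        · have : s n = ∅ := by
            ext t; simp [hs, hn]
          rw [this]
          exact MeasurableSet.empty
      set u : ℕ → ℝ := fun n => K * E.indicator (fun N : ℕ => Real.log N / N) (n + P) with hu
      have hu0 : ∀ n, 0 ≤ u n := fun n => mul_nonneg hK.le (Set.indicator_nonneg
        (fun N _ => div_nonneg (Real.log_natCast_nonneg N) (Nat.cast_nonneg N)) _)
      have hle : ∀ n, μ (s n) ≤ ENNReal.ofReal (u n) := by
        intro n
        by_cases hn : n + P ∈ E
        · have h1 := hP (n + P) (by omega)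
          have hint : Integrable (F (n + P)) μ := by
            refine Measure.integrableOn_of_bounded (M := 1) (by simp) (hFm _).aestronglyMeasurable ?_
            refine Eventually.of_forall fun t => ?_
            rw [Real.norm_eq_abs, abs_of_nonneg (ff_nonneg _ _)]
            exact ff_le_one _ _
          have h2 : μ.real (s n) ≤ ∫ t, F (n + P) t ∂μ := by
            rw [← integral_indicator_one (hmeas n)]
            refine integral_mono ?_ hint fun t => ?_
            · exact (integrable_const (1 : ℝ)).indicator (hmeas n)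
            · by_cases ht : t ∈ s n
              · rw [Set.indicator_of_mem ht]
                exact le_of_eq (by simpa using ht.2.symm)
              · rw [Set.indicator_of_notMem ht]
                exact ff_nonneg _ _
          have h3 : μ.real (s n) ≤ u n := by
            refine h2.trans (h1.trans (le_of_eq ?_))
            simp only [hu]
            rw [Set.indicator_of_mem hn]
          rw [Measure.real] at h3
          exact (ENNReal.le_ofReal_iff_toReal_le (measure_ne_top _ _) (hu0 n)).2 h3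
        · have : s n = ∅ := by
            ext t; simp [hs, hn]
          rw [this, measure_empty]
          exact bot_le
      have hsum : ∑' n, μ (s n) ≠ ⊤ := by
        have h1 : Summable u := ((summable_nat_add_iff P).2 hE).mul_left K
        have h2 : ∑' n : ℕ, ENNReal.ofReal (u n) ≠ ⊤ := by
          rw [← ENNReal.ofReal_tsum_of_nonneg hu0 h1]
          exact ENNReal.ofReal_ne_top
        exact ne_top_of_le_ne_top h2 (ENNReal.tsum_le_tsum hle)
      filter_upwards [ae_eventually_notMem hsum, ae_restrict_of_ae not_int'] with t ht htn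
      obtain ⟨M, hM⟩ := eventually_atTop.1 ht
      refine (Set.finite_lt_nat (M + P + 1)).subset fun N hN => ?_
      by_contra hlt
      rw [Set.mem_ofPred_eq, not_lt] at hlt
      obtain ⟨n, rfl⟩ : ∃ n, N = n + P := ⟨N - P, by omega⟩
      refine hM n (by omega) ⟨hN.1, ?_⟩
      show ff (n + P) (yy 1 0 1 (fun _ => 0) (n + P) t) = 1
      have hpos : 0 < (Real.exp t) ^ (n + P) + 1 := by positivity
      rw [yy_eq, ff_eq_floor hpos (fun m => htn (n + P) m (by omega)),
        Nat.floor_add_one (by positivity)]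
      exact if_pos hN.2
    filter_upwards [ae_all_iff.2 h1] with t ht hx
    have ht0 : 0 < t := by
      by_contra hc
      have := Real.exp_le_one_iff.2 (not_lt.1 hc)
      linarith
    obtain ⟨j, hj⟩ := exists_nat_gt (t + 1 / t)
    have hj0 : (0 : ℝ) ≤ j := Nat.cast_nonneg j
    have h2 : 0 < 1 / t := by positivity
    refine ht j ⟨?_, by linarith⟩
    rw [div_lt_iff₀ (by positivity)]
    have h3 : 1 / t * t = 1 := by field_simp
    nlinarith
  filter_upwards [key] with x hx h1
  exact hx (by linarith) h1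

/-- the powers of two -/
lemma summable_two : Summable fun m : ℕ => Real.log ((2 ^ m : ℕ) : ℝ) / ((2 ^ m : ℕ) : ℝ) := by
  have h1 : Summable fun m : ℕ => (m : ℝ) ^ 1 * (1 / 2 : ℝ) ^ m :=
    summable_pow_mul_geometric_of_norm_lt_one 1 (by norm_num)
  refine (h1.mul_left (Real.log 2)).congr fun m => ?_
  push_cast
  rw [Real.log_pow, one_div, inv_pow]
  ring

lemma summable_range {f : ℕ → ℕ} (hf : Function.Injective f)
    (h : Summable fun m : ℕ => Real.log (f m) / (f m : ℝ)) :
    Summable ((Set.range f).indicator fun N : ℕ => Real.log N / N) := by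
  have h1 : Summable ((fun N : ℕ => (Set.range f).indicator (fun N : ℕ => Real.log N / N) N) ∘ f) := by
    refine h.congr fun m => ?_
    simp only [Function.comp]
    rw [Set.indicator_of_mem (Set.mem_range_self m)]
  refine (hf.summable_iff fun N hN => ?_).1 h1
  exact Set.indicator_of_notMem hN _

/-- the prime factors of `2 ^ (2 ^ M) + 1` exceed `2 ^ M` -/
lemma lt_factor {M q : ℕ} (hq : q.Prime) (h : q ∣ 2 ^ 2 ^ M + 1) : 2 ^ M < q := by
  have h2 : q ≠ 2 := by
    rintro rfl
    have h3 : 2 ∣ 2 ^ 2 ^ M := dvd_pow_self 2 (by positivity)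
    have := (Nat.dvd_add_right h3).1 h
    exact absurd (Nat.le_of_dvd one_pos this) (by norm_num)
  obtain ⟨k, hk⟩ := Nat.pow_pow_add_primeFactors_one_lt hq h2 h
  rcases Nat.eq_zero_or_pos k with rfl | hk0
  · rw [zero_mul, zero_add] at hk
    exact absurd hk hq.one_lt.ne'
  · have : 2 ^ (M + 1) ≤ k * 2 ^ (M + 1) := Nat.le_mul_of_pos_left _ hk0
    rw [pow_succ] at this
    have h0 : 0 < 2 ^ M := by positivity
    rw [pow_succ] at hk
    omega

lemma rough_fermat (M : ℕ) : roughPart (2 ^ M) (⌊(2 : ℝ) ^ 2 ^ M⌋₊ + 1) = 2 ^ 2 ^ M + 1 := by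
  have h1 : (2 : ℝ) ^ 2 ^ M = ((2 ^ 2 ^ M : ℕ) : ℝ) := by push_cast; rfl
  rw [h1, Nat.floor_natCast]
  unfold roughPart
  have h2 : (2 ^ 2 ^ M + 1).primeFactorsList.filter (fun r => 2 ^ M < r) =
      (2 ^ 2 ^ M + 1).primeFactorsList := by
    rw [List.filter_eq_self]
    intro r hr
    exact decide_eq_true (lt_factor (Nat.prime_of_mem_primeFactorsList hr)
      (Nat.dvd_of_mem_primeFactorsList hr))
  rw [h2]
  exact Nat.prod_primeFactorsList (Nat.succ_ne_zero _)

end Pool.Agent.R449.SP
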