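import Mathlib
import Pool.Agent.R449.SP.Win
import Pool.Agent.TH888.R.Base

set_option autoImplicit false

/-!
# Pairs of values of the same index with a badly approximable ratio: almost all parameters
-/

namespace Pool.Agent.R449.SP

open Finset MeasureTheory Filter Topology
open Pool.Agent.W66X (ysh measurable_ysh pert8 exp_ysh ae_of_exp')
open Pool.Agent.H305R2 (roughPart ff measurable_ff ff_nonneg ff_le_one)
open Pool.Agent.H447R2.ML (ff_eq_floor)
open Pool.Agent.TH888.R (ae_windows)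

/-- the sum of the squares of `log n / n` -/
lemma summable_sq : Summable fun n : ℕ => (Real.log n / n) ^ 2 := by
  have h1 : Summable fun n : ℕ => 16 * (1 / (n : ℝ) ^ ((3 : ℝ) / 2)) :=
    (Real.summable_one_div_nat_rpow.2 (by norm_num)).mul_left 16
  refine Summable.of_nonneg_of_le (fun n => sq_nonneg _) (fun n => ?_) h1
  rcases Nat.eq_zero_or_pos n with rfl | hn
  · norm_num
  · have hn0 : (0 : ℝ) < n := by exact_mod_cast hn
    have h2 := Real.log_natCast_le_rpow_div n (ε := 1 / 4) (by norm_num)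
    have h3 : 0 ≤ Real.log n := Real.log_natCast_nonneg n
    have h4 : Real.log n ^ 2 ≤ 16 * (n : ℝ) ^ ((1 : ℝ) / 2) := by
      have h5 : (n : ℝ) ^ ((1 : ℝ) / 2) = ((n : ℝ) ^ ((1 : ℝ) / 4)) ^ 2 := by
        rw [← Real.rpow_natCast, ← Real.rpow_mul hn0.le]
        norm_num
      rw [h5]
      calc Real.log n ^ 2 ≤ ((n : ℝ) ^ ((1 : ℝ) / 4) / (1 / 4)) ^ 2 := pow_le_pow_left₀ h3 h2 2
        _ = _ := by ring
    rw [div_pow, div_le_iff₀ (by positivity)]
    have h6 : (n : ℝ) ^ 2 = (n : ℝ) ^ ((3 : ℝ) / 2) * (n : ℝ) ^ ((1 : ℝ) / 2) := by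
      rw [← Real.rpow_add hn0, ← Real.rpow_natCast]
      norm_num
    rw [h6]
    have h7 : (0 : ℝ) < (n : ℝ) ^ ((3 : ℝ) / 2) := by positivity
    calc Real.log n ^ 2 ≤ 16 * (n : ℝ) ^ ((1 : ℝ) / 2) := h4
      _ = _ := by field_simp

/-- the values are integers only for countably many parameters -/
lemma not_int {α : ℝ} (hα : 0 < α) {θ : ℝ} (hθ : 0 < θ) (g : ℕ → ℝ) :
    ∀ᵐ t : ℝ, ∀ p m : ℕ, θ * Real.exp t * α ^ p + g p ≠ m := by
  have hnull : volume (⋃ p : ℕ, ⋃ m : ℕ, {t : ℝ | θ * Real.exp t * α ^ p + g p = m}) = 0 := by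
    refine Set.Countable.measure_zero ?_ volume
    refine Set.countable_iUnion fun p => Set.countable_iUnion fun m => ?_
    refine Set.Subsingleton.countable ?_
    intro s hs t ht
    simp only [Set.mem_ofPred_eq] at hs ht
    have h3 : θ * Real.exp s * α ^ p = θ * Real.exp t * α ^ p := by linarith
    have h4 := mul_right_cancel₀ (pow_pos hα p).ne' h3
    exact Real.exp_injective (mul_left_cancel₀ hθ.ne' h4)
  have hae : ∀ᵐ t : ℝ, t ∉ ⋃ p : ℕ, ⋃ m : ℕ, {t : ℝ | θ * Real.exp t * α ^ p + g p = m} := by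
    rw [ae_iff]
    refine measure_mono_null (fun t ht => ?_) hnull
    simpa only [Set.mem_ofPred_eq, not_not] using ht
  filter_upwards [hae] with t ht p m hm
  refine ht ?_
  simp only [Set.mem_iUnion]
  exact ⟨p, m, hm⟩

/-- **Both rough parts are prime for finitely many indices only.** -/
theorem pairs_fin {α κ C C' A θ : ℝ} (hα : 1 < α) (hκ0 : 0 ≤ κ) (hκ : κ < α) {g k : ℕ → ℝ}
    (hg : ∀ p, |g p| ≤ C * κ ^ p) (hk : ∀ p, |k p| ≤ C' * κ ^ p)
    (hA : 1 ≤ A) (hAα : A < α) (hθ : 1 ≤ θ)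
    (hdio : ∀ a b : ℕ, 1 ≤ a → 1 ≤ b → 1 ≤ |(a : ℝ) - b * θ| * (A * (a + b))) :
    ∀ᵐ b : ℝ, 0 < b → {p : ℕ | (roughPart p ⌊b * α ^ p + g p⌋₊).Prime ∧
      (roughPart p ⌊θ * b * α ^ p + (θ * g p + k p)⌋₊).Prime}.Finite := by
  classical
  have hα0 : 0 < α := by linarith
  have hθ0 : 0 < θ := by linarith
  set g' : ℕ → ℝ := fun p => θ * g p + k p with hg'
  have hg'b : ∀ p, |g' p| ≤ (θ * C + C') * κ ^ p := by
    intro p
    calc |g' p| ≤ |θ * g p| + |k p| := abs_add_le _ _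
      _ = θ * |g p| + |k p| := by rw [abs_mul, abs_of_pos hθ0]
      _ ≤ θ * (C * κ ^ p) + C' * κ ^ p := add_le_add (mul_le_mul_of_nonneg_left (hg p) hθ0.le) (hk p)
      _ = _ := by ring
  refine ae_of_exp' (P := fun b : ℝ => {p : ℕ | (roughPart p ⌊b * α ^ p + g p⌋₊).Prime ∧
      (roughPart p ⌊θ * b * α ^ p + g' p⌋₊).Prime}.Finite) (ae_windows fun b0 => ?_)
  obtain ⟨K, hK, hev⟩ := pair_near hα hκ0 hκ hg hk hA hAα hθ hdio b0
  set μ := volume.restrict (Set.Ioc b0 (b0 + 1)) with hμ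
  set F : ℕ → ℝ → ℝ := fun p t => ff p (ysh α g p t) * ff p (ysh α g' p (Real.log θ + t)) with hF
  have hms : ∀ p, Measurable (fun t => ysh α g' p (Real.log θ + t)) := fun p =>
    (measurable_ysh α g' p).comp (measurable_const_add (Real.log θ))
  have hFm : ∀ p, Measurable (F p) := fun p =>
    ((measurable_ff p).comp (measurable_ysh _ _ _)).mul ((measurable_ff p).comp (hms p))
  have hF0 : ∀ p t, 0 ≤ F p t := fun p t => mul_nonneg (ff_nonneg _ _) (ff_nonneg _ _)
  have hF1 : ∀ p t, F p t ≤ 1 := fun p t => mul_le_one₀ (ff_le_one _ _) (ff_nonneg _ _) (ff_le_one _ _)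
  obtain ⟨P, hP⟩ := eventually_atTop.1 hev
  -- the sets
  set s : ℕ → Set ℝ := fun n => {t | F (n + P) t = 1} with hs
  have hmeas : ∀ n, MeasurableSet (s n) := fun n => (hFm (n + P)) (measurableSet_singleton 1)
  have hle : ∀ n, μ (s n) ≤ ENNReal.ofReal (K * (Real.log ((n + P : ℕ) : ℝ) / ((n + P : ℕ) : ℝ)) ^ 2) := by
    intro n
    have h1 := hP (n + P) (by omega)
    have hint : Integrable (F (n + P)) μ := by
      refine Measure.integrableOn_of_bounded (M := 1) (by simp) (hFm _).aestronglyMeasurable ?_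
      refine Eventually.of_forall fun t => ?_
      rw [Real.norm_eq_abs, abs_of_nonneg (hF0 _ _)]
      exact hF1 _ _
    have h2 : μ.real (s n) ≤ ∫ t, F (n + P) t ∂μ := by
      rw [← integral_indicator_one (hmeas n)]
      refine integral_mono ?_ hint fun t => ?_
      · exact (integrable_const (1 : ℝ)).indicator (hmeas n)
      · by_cases ht : t ∈ s n
        · rw [Set.indicator_of_mem ht]
          exact le_of_eq (by simpa using (show F (n + P) t = 1 from ht).symm)
        · rw [Set.indicator_of_notMem ht]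
          exact hF0 _ _
    have h3 : μ.real (s n) ≤ K * (Real.log ((n + P : ℕ) : ℝ) / ((n + P : ℕ) : ℝ)) ^ 2 := h2.trans h1
    rw [Measure.real] at h3
    exact (ENNReal.le_ofReal_iff_toReal_le (measure_ne_top _ _) (by positivity)).2 h3
  have hsum : ∑' n, μ (s n) ≠ ⊤ := by
    have h1 : Summable fun n : ℕ => K * (Real.log ((n + P : ℕ) : ℝ) / ((n + P : ℕ) : ℝ)) ^ 2 :=
      ((summable_nat_add_iff P).2 summable_sq).mul_left K
    have h2 : ∑' n : ℕ, ENNReal.ofReal (K * (Real.log ((n + P : ℕ) : ℝ) / ((n + P : ℕ) : ℝ)) ^ 2) ≠ ⊤ := by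
      rw [← ENNReal.ofReal_tsum_of_nonneg (fun n => by positivity) h1]
      exact ENNReal.ofReal_ne_top
    exact ne_top_of_le_ne_top h2 (ENNReal.tsum_le_tsum hle)
  have hbc := ae_eventually_notMem hsum
  have hpert := pert8 hα0 hκ0 hκ hg b0 8
  have hpert' := pert8 hα0 hκ0 hκ hg'b (Real.log θ + b0) 8
  have hni := not_int hα0 one_pos g
  have hni' := not_int hα0 hθ0 g'
  filter_upwards [hbc, ae_restrict_of_ae hni, ae_restrict_of_ae hni',
    ae_restrict_mem measurableSet_Ioc] with t ht htn htn' htI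
  obtain ⟨N, hN⟩ := eventually_atTop.1 ht
  obtain ⟨P1, hP1⟩ := eventually_atTop.1 (hpert.and hpert')
  refine (Set.finite_lt_nat (N + P + P1)).subset fun p hp => ?_
  by_contra hlt
  rw [Set.mem_ofPred_eq, not_lt] at hlt
  obtain ⟨n, rfl⟩ : ∃ n, p = n + P := ⟨p - P, by omega⟩
  have hn := hN n (by omega)
  refine hn ?_
  obtain ⟨q1, q2⟩ := hP1 (n + P) (by omega)
  have e1 := (exp_ysh hα0 q1 (t := t) htI.1.le).2.1
  have e2 := (exp_ysh hα0 q2 (t := Real.log θ + t) (by linarith [htI.1])).2.1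
  have hexp : Real.exp (Real.log θ + t) = θ * Real.exp t := by
    rw [Real.exp_add, Real.exp_log hθ0]
  rw [hexp] at e2
  have f1 : ff (n + P) (ysh α g (n + P) t) = 1 := by
    unfold ysh
    rw [ff_eq_floor e1 (fun m => by simpa using htn (n + P) m)]
    exact if_pos hp.1
  have f2 : ff (n + P) (ysh α g' (n + P) (Real.log θ + t)) = 1 := by
    unfold ysh
    rw [hexp, ff_eq_floor e2 (htn' (n + P))]
    exact if_pos hp.2
  show F (n + P) t = 1
  simp only [hF]
  rw [f1, f2, mul_one]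

end Pool.Agent.R449.SP
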