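import Mathlib
import Pool.Agent.H447R2.ML.Spec
import Pool.Agent.H19P.QA

set_option autoImplicit false

/-!
# The real solutions of the recurrence of `p ^ 2 - 2 r ^ 2 = -1`
-/

namespace Pool.Agent.R449.SP

open Filter Topology MeasureTheory

/-- first coordinates of the real solutions -/
noncomputable def X (β B : ℝ) (n : ℕ) : ℝ :=
  (β * (1 + Real.sqrt 2) ^ n + B * (1 - Real.sqrt 2) ^ n) / 2

/-- second coordinates of the real solutions -/
noncomputable def Y (β B : ℝ) (n : ℕ) : ℝ :=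
  (β * (1 + Real.sqrt 2) ^ n - B * (1 - Real.sqrt 2) ^ n) / (2 * Real.sqrt 2)

/-- the positive integer solutions of `p ^ 2 - 2 r ^ 2 = -1` -/
def sol : ℕ → ℕ × ℕ
  | 0 => (1, 1)
  | (k + 1) => (3 * (sol k).1 + 4 * (sol k).2, 2 * (sol k).1 + 3 * (sol k).2)

lemma s2_sq : Real.sqrt 2 ^ 2 = 2 := Real.sq_sqrt (by norm_num)

lemma s2_pos : 0 < Real.sqrt 2 := Real.sqrt_pos.2 (by norm_num)

lemma s2_lt : Real.sqrt 2 < 3 / 2 := by nlinarith [s2_sq, s2_pos]

lemma one_lt_s2 : 1 < Real.sqrt 2 := by nlinarith [s2_sq, s2_pos]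

lemma one_lt_al : 1 < 1 + Real.sqrt 2 := by linarith [s2_pos]

lemma al_add : (1 + Real.sqrt 2) + (1 - Real.sqrt 2) = ((2 : ℤ) : ℝ) := by push_cast; ring

lemma al_mul : (1 + Real.sqrt 2) * (1 - Real.sqrt 2) = -1 := by nlinarith [s2_sq]

lemma XY_succ (β B : ℝ) (n : ℕ) :
    X β B (n + 1) = X β B n + 2 * Y β B n ∧ Y β B (n + 1) = X β B n + Y β B n := by
  have h := s2_pos.ne'
  have h2 := s2_sq
  unfold X Y
  constructor
  · field_simp
    linear_combination (β * (1 + Real.sqrt 2) ^ n - B * (1 - Real.sqrt 2) ^ n) * h2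
  · field_simp
    ring

lemma XY_sol (k : ℕ) : X 1 1 (2 * k + 1) = (sol k).1 ∧ Y 1 1 (2 * k + 1) = (sol k).2 := by
  induction k with
  | zero =>
    have h := s2_pos.ne'
    unfold X Y sol
    constructor
    · push_cast; ring
    · push_cast; field_simp; ring
  | succ k ih =>
    obtain ⟨h1, h2⟩ := ih
    have e : 2 * (k + 1) + 1 = (2 * k + 1) + 1 + 1 := by ring
    have hA := XY_succ 1 1 (2 * k + 1)
    have hB := XY_succ 1 1 (2 * k + 1 + 1)
    have hs : sol (k + 1) = (3 * (sol k).1 + 4 * (sol k).2, 2 * (sol k).1 + 3 * (sol k).2) := rfl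
    rw [e, hB.1, hB.2, hA.1, hA.2, h1, h2, hs]
    constructor
    · push_cast; ring
    · push_cast; ring

lemma sol_UV (k : ℕ) : Pool.Agent.H447R2.ML.U 2 (2 * k + 1) = (sol k).2 ∧
    Pool.Agent.H447R2.ML.V 2 (2 * k + 1) = 2 * (sol k).1 ∧
    Pool.Agent.H447R2.ML.U 2 (2 * k + 2) = (sol k).1 + (sol k).2 ∧
    Pool.Agent.H447R2.ML.V 2 (2 * k + 2) = 2 * (sol k).1 + 4 * (sol k).2 := by
  induction k with
  | zero => decide
  | succ k ih =>
    obtain ⟨h1, h2, h3, h4⟩ := ih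
    have a1 : Pool.Agent.H447R2.ML.U 2 (2 * (k + 1) + 1) = 2 * ((sol k).1 + (sol k).2) + (sol k).2 := by
      rw [show 2 * (k + 1) + 1 = (2 * k + 1) + 2 by ring, Pool.Agent.H447R2.ML.U_add_two,
        show 2 * k + 1 + 1 = 2 * k + 2 by ring, h1, h3]
    have a2 : Pool.Agent.H447R2.ML.V 2 (2 * (k + 1) + 1) =
        2 * (2 * (sol k).1 + 4 * (sol k).2) + 2 * (sol k).1 := by
      rw [show 2 * (k + 1) + 1 = (2 * k + 1) + 2 by ring, Pool.Agent.H447R2.ML.V_add_two,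
        show 2 * k + 1 + 1 = 2 * k + 2 by ring, h2, h4]
    have a3 : Pool.Agent.H447R2.ML.U 2 (2 * (k + 1) + 2) =
        2 * (2 * ((sol k).1 + (sol k).2) + (sol k).2) + ((sol k).1 + (sol k).2) := by
      rw [show 2 * (k + 1) + 2 = (2 * k + 2) + 2 by ring, Pool.Agent.H447R2.ML.U_add_two,
        show 2 * k + 2 + 1 = 2 * (k + 1) + 1 by ring, a1, h3]
    have a4 : Pool.Agent.H447R2.ML.V 2 (2 * (k + 1) + 2) =
        2 * (2 * (2 * (sol k).1 + 4 * (sol k).2) + 2 * (sol k).1) + (2 * (sol k).1 + 4 * (sol k).2) := by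
      rw [show 2 * (k + 1) + 2 = (2 * k + 2) + 2 by ring, Pool.Agent.H447R2.ML.V_add_two,
        show 2 * k + 2 + 1 = 2 * (k + 1) + 1 by ring, a2, h4]
    rw [a1, a2, a3, a4]
    simp only [sol]
    refine ⟨?_, ?_, ?_, ?_⟩ <;> ring

lemma sol_pell (k : ℕ) : (sol k).1 ^ 2 + 1 = 2 * (sol k).2 ^ 2 := by
  induction k with
  | zero => decide
  | succ k ih =>
    simp only [sol]
    nlinarith [ih]

/-- the rough parts of the terms of prime index are the terms themselves -/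
lemma rough_sol {k : ℕ} (h5 : 5 ≤ 2 * k + 1) (hp : (2 * k + 1).Prime) :
    Pool.Agent.H305R2.roughPart (2 * k + 1) ⌊X 1 1 (2 * k + 1)⌋₊ = (sol k).1 ∧
    Pool.Agent.H305R2.roughPart (2 * k + 1) ⌊Y 1 1 (2 * k + 1)⌋₊ = (sol k).2 := by
  have hodd : ¬ (2 * k + 1) ∣ 2 := fun h => by
    have := Nat.le_of_dvd (by norm_num) h
    omega
  constructor
  · rw [(XY_sol k).1, Nat.floor_natCast]
    refine Pool.Agent.H447R2.ML.roughPart_eq_self ?_ fun q hq h => ?_
    · intro h0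
      have := sol_pell k
      rw [h0] at this
      omega
    · have hq2 : ¬ q ∣ 2 := by
        intro h2
        have hq' : q = 2 := (Nat.prime_dvd_prime_iff_eq hq Nat.prime_two).1 h2
        subst hq'
        obtain ⟨m, hm⟩ := h
        have h3 := sol_pell k
        obtain ⟨c, hc⟩ : 2 ∣ (2 * m) ^ 2 := dvd_pow (Dvd.intro m rfl) two_ne_zero
        rw [hm, hc] at h3
        omega
      refine Pool.Agent.H447R2.ML.lt_of_dvd_V 2 hp h5 hodd hq hq2 ?_
      rw [(sol_UV k).2.1]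
      exact h.mul_left 2
  · have hd : ¬ (2 * k + 1) ∣ 2 ^ 2 + 4 := by
      intro h
      have h8 : (2 * k + 1) ∣ 2 ^ 3 := h
      exact hodd (hp.dvd_of_dvd_pow h8)
    have h := Pool.Agent.H447R2.ML.rough_U 2 two_pos hp h5 hd
      (x := Y 1 1 (2 * k + 1)) (by rw [(XY_sol k).2, (sol_UV k).1])
    rw [(sol_UV k).1] at h
    exact h

lemma ae_scale {P : ℝ → Prop} {c : ℝ} (hc : c ≠ 0) (h : ∀ᵐ b : ℝ, P b) : ∀ᵐ β : ℝ, P (c * β) := by
  rw [ae_iff] at h ⊢
  have h1 := Real.volume_preimage_mul_left hc {b | ¬ P b}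
  rw [h, mul_zero] at h1
  exact h1

/-- the law for the first coordinates -/
theorem pt_X (B : ℝ) (S : Set ℕ) : ∀ᵐ β : ℝ, 0 < β →
    Pool.Agent.TH888.R.Pt (fun p => ⌊X β B p⌋₊)
      (Real.exp Real.eulerMascheroniConstant / Real.log (1 + Real.sqrt 2)) S := by
  have h := ae_scale (c := 1 / 2) (by norm_num)
    (Pool.Agent.H19P.pt_unit one_lt_al al_add al_mul (B / 2) S)
  filter_upwards [h] with β hβ h0
  have h1 := hβ (by positivity)
  have e : (fun p => ⌊X β B p⌋₊) =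
      fun p : ℕ => ⌊1 / 2 * β * (1 + Real.sqrt 2) ^ p + B / 2 * (1 - Real.sqrt 2) ^ p⌋₊ := by
    funext p
    congr 1
    unfold X
    ring
  rw [e]
  exact h1

/-- the law for the second coordinates -/
theorem pt_Y (B : ℝ) (S : Set ℕ) : ∀ᵐ β : ℝ, 0 < β →
    Pool.Agent.TH888.R.Pt (fun p => ⌊Y β B p⌋₊)
      (Real.exp Real.eulerMascheroniConstant / Real.log (1 + Real.sqrt 2)) S := by
  have hs := s2_pos
  have h := ae_scale (c := 1 / (2 * Real.sqrt 2)) (by positivity)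
    (Pool.Agent.H19P.pt_unit one_lt_al al_add al_mul (-(B / (2 * Real.sqrt 2))) S)
  filter_upwards [h] with β hβ h0
  have h1 := hβ (by positivity)
  have e : (fun p => ⌊Y β B p⌋₊) = fun p : ℕ => ⌊1 / (2 * Real.sqrt 2) * β * (1 + Real.sqrt 2) ^ p +
      -(B / (2 * Real.sqrt 2)) * (1 - Real.sqrt 2) ^ p⌋₊ := by
    funext p
    congr 1
    unfold Y
    ring
  rw [e]
  exact h1

end Pool.Agent.R449.SP
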